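import Pool.Graph.R_seed8.Y366.TL.Main
import Mathlib.ModelTheory.Arithmetic.Presburger.Semilinear.Defs

set_option autoImplicit false

/-!
# The commutative image of the equality set
-/

namespace Pool.Agent.KS6_1.EqSet

open Pool.Agent.Results.MP_195d7c_lc.ThreeLetters Pool.Agent.Y366.TL

variable {S : Type} {A B C : S}

/-- The triangular numbers. -/
def tri : ℕ → ℕ
  | 0 => 0
  | n + 1 => tri n + (n + 1)

section bounds

variable [DecidableEq S]

theorem run_lower (hAB : A ≠ B) (hAC : A ≠ C) (hBC : B ≠ C) {s r s' r' : ℕ} {w : List S}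
    (h : Run A B C s r w s' r') : r + w.count A ≤ w.count B + r' := by
  induction h with
  | nil => simp
  | b _ ih => simp [hAB.symm] at ih ⊢; omega
  | a _ ih => simp [hAB] at ih ⊢; omega
  | c _ ih => simp [hAC.symm, hBC.symm] at ih ⊢; omega
  | o x1 x2 x3 _ ih => simpa [List.count_cons, x1, x2] using ih

theorem run_parity (hAB : A ≠ B) (hAC : A ≠ C) (hBC : B ≠ C) {s r s' r' : ℕ} {w : List S}
    (h : Run A B C s r w s' r') :
    (w.count B + r' + tri s + w.count C) % 2 = (r + tri s') % 2 := by
  induction h with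
  | nil => simp
  | b _ ih => simp [hBC] at ih ⊢; omega
  | a _ ih => simp [hAB, hAC, tri] at ih ⊢; omega
  | c _ ih => simp [hBC.symm, tri] at ih ⊢; omega
  | o x1 x2 x3 _ ih => simpa [List.count_cons, x2, x3] using ih

theorem run_upper' (hAB : A ≠ B) (hAC : A ≠ C) (hBC : B ≠ C) {s r s' r' : ℕ} {w : List S}
    (h : Run A B C s r w s' r') (hs : s' = 0) (hr : r' = 0) :
    2 * w.count B + (s + w.count A) ≤ 2 * r + 2 * (w.count A * s) + w.count A * (w.count A + 1)
      + (s + w.count A) ^ 2 := by
  induction h with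
  | nil => subst hs; simp
  | b _ ih =>
    have := ih hs hr
    simp [hAB.symm] at this ⊢; omega
  | @a s s' r' W _ ih =>
    have := ih hs hr
    simp [hAB] at this ⊢
    nlinarith
  | @c s s' r' W _ ih =>
    have := ih hs hr
    simp [hAC.symm, hBC.symm] at this ⊢
    nlinarith
  | o x1 x2 x3 _ ih =>
    have := ih hs hr
    simpa [List.count_cons, x1, x2] using this

theorem run_upper (hAB : A ≠ B) (hAC : A ≠ C) (hBC : B ≠ C) {w : List S}
    (h : Run A B C 0 0 w 0 0) : w.count B ≤ w.count A ^ 2 := by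
  have := run_upper' hAB hAC hBC h rfl rfl
  nlinarith

end bounds

/-! ### Words with given numbers of letters -/

section words

variable [DecidableEq S]

/-- Raise the level of all states by one. -/
def raise (B : S) : List S → List S
  | [] => []
  | X :: w => if X = B then B :: raise B w else X :: B :: raise B w

theorem run_raise (hAB : A ≠ B) (hBC : B ≠ C) {s r s' r' : ℕ} {w : List S}
    (h : Run A B C s r w s' r') (hw : ∀ X ∈ w, X = A ∨ X = B ∨ X = C) :
    Run A B C (s + 1) r (raise B w) (s' + 1) r' := by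
  induction h with
  | nil s r => exact .nil (s + 1) r
  | b _ ih =>
    rw [raise, if_pos rfl]
    exact .b (ih fun X hX => hw X (List.mem_cons_of_mem _ hX))
  | a _ ih =>
    rw [raise, if_neg hAB]
    exact .a (.b (ih fun X hX => hw X (List.mem_cons_of_mem _ hX)))
  | c _ ih =>
    rw [raise, if_neg hBC.symm]
    exact .c (.b (ih fun X hX => hw X (List.mem_cons_of_mem _ hX)))
  | o x1 x2 x3 _ ih =>
    exfalso
    rcases hw _ List.mem_cons_self with h | h | h
    · exact x1 h
    · exact x2 h
    · exact x3 h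

theorem count_raise_ne {X : S} (hX : X ≠ B) (w : List S) :
    (raise B w).count X = w.count X := by
  induction w with
  | nil => rfl
  | cons Y w ih =>
    rw [raise]
    split_ifs with h
    · subst h
      simp [ih, hX.symm]
    · simp [List.count_cons, ih, hX.symm]

theorem length_raise (w : List S) :
    (raise B w).count B + w.count B = w.length + w.count B := by
  induction w with
  | nil => rfl
  | cons Y w ih =>
    rw [raise]
    split_ifs with h
    · subst h
      simp
      omega
    · simp [h]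
      omega

theorem mem_raise {X : S} {w : List S} (h : X ∈ raise B w) : X = B ∨ X ∈ w := by
  induction w with
  | nil => simp [raise] at h
  | cons Y w ih =>
    rw [raise] at h
    split_ifs at h with h1
    · rcases List.mem_cons.1 h with h | h
      · exact Or.inl h
      · rcases ih h with h | h
        · exact Or.inl h
        · exact Or.inr (List.mem_cons_of_mem _ h)
    · rcases List.mem_cons.1 h with h | h
      · exact Or.inr (by rw [h]; exact List.mem_cons_self)
      · rcases List.mem_cons.1 h with h | h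
        · exact Or.inl h
        · rcases ih h with h | h
          · exact Or.inl h
          · exact Or.inr (List.mem_cons_of_mem _ h)

/-- There is a word of the letters `A`, `B`, `C` with `n` letters `A` and `m` letters `B` in the
equality set. -/
def Ex (A B C : S) (n m : ℕ) : Prop :=
  ∃ w : List S, (∀ X ∈ w, X = A ∨ X = B ∨ X = C) ∧ Run A B C 0 0 w 0 0 ∧
    w.count A = n ∧ w.count B = m ∧ w.count C = n

theorem length_eq (hAB : A ≠ B) (hAC : A ≠ C) (hBC : B ≠ C) {w : List S}
    (hw : ∀ X ∈ w, X = A ∨ X = B ∨ X = C) :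
    w.length = w.count A + w.count B + w.count C := by
  induction w with
  | nil => rfl
  | cons X w ih =>
    have h1 := ih fun X hX => hw X (List.mem_cons_of_mem _ hX)
    rcases hw X List.mem_cons_self with rfl | rfl | rfl
    · simp [hAB, hAC]; omega
    · simp [hAB.symm, hBC]; omega
    · simp [hAC.symm, hBC.symm]; omega

theorem Ex.zero : Ex A B C 0 0 := ⟨[], by simp, .nil 0 0, rfl, rfl, rfl⟩

theorem Ex.low (hAB : A ≠ B) (hAC : A ≠ C) (hBC : B ≠ C) {n m : ℕ} (h : Ex A B C n m) :
    Ex A B C (n + 1) (m + 1) := by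
  obtain ⟨w, h1, h2, h3, h4, h5⟩ := h
  refine ⟨A :: B :: C :: w, ?_, .a (.b (.c h2)), ?_, ?_, ?_⟩
  · intro X hX
    simp only [List.mem_cons] at hX
    rcases hX with h | h | h | h
    · exact Or.inl h
    · exact Or.inr (Or.inl h)
    · exact Or.inr (Or.inr h)
    · exact h1 X h
  · simp [hAB.symm, hAC.symm, h3]
  · simp [hAB, hBC.symm, h4]
  · simp [hAC, hBC, h5]

theorem Ex.high (hAB : A ≠ B) (hAC : A ≠ C) (hBC : B ≠ C) {n m : ℕ} (h : Ex A B C n m) :
    Ex A B C (n + 1) (m + 2 * n + 1) := by
  obtain ⟨w, h1, h2, h3, h4, h5⟩ := h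
  have h6 := length_eq hAB hAC hBC h1
  have h7 := length_raise (B := B) w
  refine ⟨A :: B :: (raise B w ++ [C]), ?_,
    .a (.b ((run_raise hAB hBC h2 h1).append (.c (.nil 0 0)))), ?_, ?_, ?_⟩
  · intro X hX
    simp only [List.mem_cons, List.mem_append, List.not_mem_nil, or_false] at hX
    rcases hX with h | h | h | h
    · exact Or.inl h
    · exact Or.inr (Or.inl h)
    · rcases mem_raise h with h | h
      · exact Or.inr (Or.inl h)
      · exact h1 X h
    · exact Or.inr (Or.inr h)
  · simp [hAB.symm, hAC.symm, h3, count_raise_ne hAB]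
  · simp [hAB, hBC.symm]
    omega
  · simp [hAC, hBC, h5, count_raise_ne hBC.symm]

/-- All numbers `m` of letters `B` with `n ≤ m ≤ n ^ 2` and the parity of `n` occur. -/
theorem ex_all (hAB : A ≠ B) (hAC : A ≠ C) (hBC : B ≠ C) (n m : ℕ) (h1 : n ≤ m)
    (h2 : m ≤ n ^ 2) (h3 : m % 2 = n % 2) : Ex A B C n m := by
  induction n generalizing m with
  | zero =>
    obtain rfl : m = 0 := by simpa using h2
    exact Ex.zero
  | succ n ih =>
    by_cases h4 : m - 1 ≤ n ^ 2
    · have h5 := (ih (m - 1) (by omega) h4 (by omega)).low hAB hAC hBC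
      rwa [Nat.sub_add_cancel (by omega)] at h5
    · -- `m ≥ n ^ 2 + 3`
      push Not at h4
      have hpar : n ^ 2 % 2 = n % 2 := by
        rcases Nat.even_or_odd n with h | h
        · obtain ⟨k, rfl⟩ := h
          have : (k + k) ^ 2 = 2 * (2 * k ^ 2) := by ring
          omega
        · obtain ⟨k, rfl⟩ := h
          have : (2 * k + 1) ^ 2 = 2 * (2 * k ^ 2 + 2 * k) + 1 := by ring
          omega
      have h5 : n ^ 2 + 3 ≤ m := by omega
      have h6 : 5 * n ≤ n ^ 2 + 6 := by
        rcases Nat.lt_or_ge n 3 with h | h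
        · interval_cases n <;> norm_num
        · obtain ⟨k, rfl⟩ := Nat.exists_eq_add_of_le h
          nlinarith
      have h7 : n + 1 + 2 * n ≤ m := by
        by_contra hcon
        push Not at hcon
        have h8 : n ^ 2 + 3 < 3 * n + 1 := by omega
        have h9 : n ≤ 2 := by
          by_contra h10
          push Not at h10
          obtain ⟨k, rfl⟩ := Nat.exists_eq_add_of_lt h10
          nlinarith
        interval_cases n <;> omega
      have h8 : (n + 1) ^ 2 = n ^ 2 + 2 * n + 1 := by ring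
      have h9 := (ih (m - (2 * n + 1)) (by omega) (by omega) (by omega)).high hAB hAC hBC
      have h10 : m - (2 * n + 1) + 2 * n + 1 = m := by omega
      rwa [h10] at h9

/-- All vectors of numbers of letters occur. -/
theorem exists_count [Fintype S] (v : S → ℕ) : ∃ l : List S, ∀ X, l.count X = v X := by
  refine ⟨(∑ X : S, Multiset.replicate (v X) X).toList, fun X => ?_⟩
  rw [← Multiset.coe_count, Multiset.coe_toList, Multiset.count_sum']
  simp [Multiset.count_replicate]

omit [DecidableEq S] in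
theorem run_other {l : List S} (hl : ∀ X ∈ l, X ≠ A ∧ X ≠ B ∧ X ≠ C) :
    Run A B C 0 0 l 0 0 := by
  induction l with
  | nil => exact .nil 0 0
  | cons X l ih =>
    obtain ⟨h1, h2, h3⟩ := hl X List.mem_cons_self
    exact .o h1 h2 h3 (ih fun X hX => hl X (List.mem_cons_of_mem _ hX))

/-- **The commutative image of the set of accepted runs.** -/
theorem parikh_run [Fintype S] (hAB : A ≠ B) (hAC : A ≠ C) (hBC : B ≠ C) (v : S → ℕ) :
    (∃ w : List S, Run A B C 0 0 w 0 0 ∧ ∀ X, w.count X = v X) ↔
      v C = v A ∧ v A ≤ v B ∧ v B ≤ v A ^ 2 ∧ v B % 2 = v A % 2 := by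
  constructor
  · rintro ⟨w, hw, hv⟩
    have h1 := hw.level hAB hAC hBC
    have h2 := run_lower hAB hAC hBC hw
    have h3 := run_upper hAB hAC hBC hw
    have h4 := run_parity hAB hAC hBC hw
    simp only [hv, Nat.zero_add, Nat.add_zero, tri] at h1 h2 h3 h4
    exact ⟨h1, h2, h3, by omega⟩
  · rintro ⟨h1, h2, h3, h4⟩
    obtain ⟨w, w1, w2, w3, w4, w5⟩ := ex_all hAB hAC hBC (v A) (v B) h2 h3 h4
    obtain ⟨l, hl⟩ := exists_count (fun X => if X = A ∨ X = B ∨ X = C then 0 else v X)
    have hl' : ∀ X ∈ l, X ≠ A ∧ X ≠ B ∧ X ≠ C := by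
      intro X hX
      have h5 := List.count_pos_iff.2 hX
      rw [hl X] at h5
      by_contra hcon
      have : X = A ∨ X = B ∨ X = C := by tauto
      simp [this] at h5
    refine ⟨l ++ w, (run_other hl').append w2, fun X => ?_⟩
    rw [List.count_append, hl]
    by_cases hX : X = A ∨ X = B ∨ X = C
    · rw [if_pos hX]
      rcases hX with rfl | rfl | rfl
      · rw [w3, Nat.zero_add]
      · rw [w4, Nat.zero_add]
      · rw [w5, Nat.zero_add, h1]
    · rw [if_neg hX]
      have : w.count X = 0 := by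
        apply List.count_eq_zero.2
        intro h
        exact hX (w1 X h)
      rw [this, Nat.add_zero]

end words

/-! ### Semilinear sets -/

open Pointwise in
/-- A linear set of vectors with `v B ≤ (v A) ^ 2` satisfies a linear bound. -/
theorem linear_bound {ι : Type} {L : Set (ι → ℕ)} (hL : IsLinearSet L) (A B : ι)
    (hb : ∀ v ∈ L, v B ≤ v A ^ 2) : ∃ K : ℕ, ∀ v ∈ L, v B ≤ K * (v A + 1) := by
  obtain ⟨x, t, ht, rfl⟩ := hL
  set K0 := ∑ u ∈ ht.toFinset, u B with hK0
  have h1 : ∀ u ∈ t, u B ≤ K0 * u A := by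
    intro u hu
    by_cases hA : u A = 0
    · rw [hA, Nat.mul_zero, Nat.le_zero]
      by_contra hB
      have h2 : x + (x A ^ 2 + 1) • u ∈ x +ᵥ (AddSubmonoid.closure t : Set (ι → ℕ)) :=
        ⟨_, (AddSubmonoid.closure t).nsmul_mem (AddSubmonoid.subset_closure hu) _, rfl⟩
      have h3 := hb _ h2
      simp only [Pi.add_apply, Pi.smul_apply, smul_eq_mul, hA, Nat.mul_zero, Nat.add_zero] at h3
      have h4 : (x A ^ 2 + 1) * 1 ≤ (x A ^ 2 + 1) * u B :=
        Nat.mul_le_mul_left _ (Nat.pos_of_ne_zero hB)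
      omega
    · have h2 : u B ≤ K0 :=
        Finset.single_le_sum (f := fun u : ι → ℕ => u B) (fun _ _ => Nat.zero_le _)
          (ht.mem_toFinset.2 hu)
      exact h2.trans (Nat.le_mul_of_pos_right _ (Nat.pos_of_ne_zero hA))
  refine ⟨x B + K0, ?_⟩
  rintro _ ⟨w, hw, rfl⟩
  have h2 : w B ≤ K0 * w A := by
    induction hw using AddSubmonoid.closure_induction with
    | mem u hu => exact h1 u hu
    | zero => simp
    | add u v _ _ hu hv =>
      simp only [Pi.add_apply]
      nlinarith
  simp only [vadd_eq_add, Pi.add_apply]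
  nlinarith [Nat.zero_le (x B * (x A + w A)), Nat.zero_le (K0 * (x A + 1))]

/-- A semilinear set of vectors with `v B ≤ (v A) ^ 2` satisfies a linear bound. -/
theorem semilinear_bound {ι : Type} {P : Set (ι → ℕ)} (hP : IsSemilinearSet P) (A B : ι)
    (hb : ∀ v ∈ P, v B ≤ v A ^ 2) : ∃ K : ℕ, ∀ v ∈ P, v B ≤ K * (v A + 1) := by
  obtain ⟨T, hT, hT2, rfl⟩ := hP
  have h1 : ∀ L ∈ T, ∃ K : ℕ, ∀ v ∈ L, v B ≤ K * (v A + 1) := fun L hL =>
    linear_bound (hT2 L hL) A B fun v hv => hb v ⟨L, hL, hv⟩
  choose! K hK using h1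
  refine ⟨∑ L ∈ hT.toFinset, K L, ?_⟩
  rintro v ⟨L, hL, hv⟩
  have h2 : K L ≤ ∑ L ∈ hT.toFinset, K L :=
    Finset.single_le_sum (f := K) (fun _ _ => Nat.zero_le _) (hT.mem_toFinset.2 hL)
  exact (hK L hL v hv).trans (Nat.mul_le_mul_right _ h2)

/-- The set of vectors is not semilinear. -/
theorem not_semilinear {ι : Type} [DecidableEq ι] {A B C : ι} (hAB : A ≠ B) (hBC : B ≠ C) :
    ¬ IsSemilinearSet
      {v : ι → ℕ | v C = v A ∧ v A ≤ v B ∧ v B ≤ v A ^ 2 ∧ v B % 2 = v A % 2} := by
  intro hP
  obtain ⟨K, hK⟩ := semilinear_bound hP A B fun v hv => hv.2.2.1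
  have h1 := hK (fun X => if X = B then (K + 1) ^ 2 else K + 1) (by
    have hpar : (K + 1) ^ 2 % 2 = (K + 1) % 2 := by
      rcases Nat.even_or_odd (K + 1) with h | h
      · obtain ⟨k, hk⟩ := h
        rw [hk]
        have : (k + k) ^ 2 = 2 * (2 * k ^ 2) := by ring
        omega
      · obtain ⟨k, hk⟩ := h
        rw [hk]
        have : (2 * k + 1) ^ 2 = 2 * (2 * k ^ 2 + 2 * k) + 1 := by ring
        omega
    simp only [Set.mem_ofPred_eq, if_true, hAB, hBC.symm, if_false]
    refine ⟨trivial, ?_, le_rfl, hpar⟩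
    nlinarith)
  simp only [if_true, hAB, if_false] at h1
  nlinarith

end Pool.Agent.KS6_1.EqSet
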