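import Pool.Graph.R_seed8.Y366.TL.Main
import Pool.Graph.R_seed8.Y366.TL.Delay
import Pool.Graph.R_seed8.Y366.TL.Block

set_option autoImplicit false

/-!
# The second morphism is of bounded delay from right to left
-/

namespace Pool.Agent.KS6_1.EqSet

open Pool.Agent.Results.MP_195d7c_lc.ThreeLetters Pool.Agent.Y366.TL

theorem ext_reverse {D E : Type} (f : D → List E) (x : List D) :
    (ext f x).reverse = ext (fun d => (f d).reverse) x.reverse := by
  induction x with
  | nil => rfl
  | cons a x ih =>
    rw [ext_cons, List.reverse_append, ih, List.reverse_cons, ext_append]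
    simp [ext]

/-- A block code reflects the order by final segments. -/
theorem block_isSuffix {D E : Type} (f : D → List E) (n : ℕ) (hn : 0 < n)
    (hf : Function.Injective f) (hl : ∀ d, (f d).length = n) (x y : List D)
    (h : ext f x <:+ ext f y) : x <:+ y := by
  rw [← List.reverse_prefix, ext_reverse, ext_reverse] at h
  rw [← List.reverse_prefix]
  refine block_isPrefix (fun d => (f d).reverse) n hn ?_ ?_ _ _ h
  · intro c d hcd
    exact hf (List.reverse_injective hcd)
  · intro d
    simp [hl]

/-- A block code into two letters. -/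
theorem exists_binary' (D : Type) [Fintype D] [Nonempty D] :
    ∃ c : FreeMonoid D →* FreeMonoid Bool, Function.Injective c ∧
      (∀ x y : FreeMonoid D, (c x).toList <+: (c y).toList → x.toList <+: y.toList) ∧
      (∀ x y : FreeMonoid D, (c x).toList <:+ (c y).toList → x.toList <:+ y.toList) := by
  classical
  have hinj := block_injective (hot D) (Fintype.card D) Fintype.card_pos (hot_injective D)
    (hot_length D)
  refine ⟨mor (hot D), ?_, ?_, ?_⟩
  · intro x y h
    have h1 : mor (hot D) (FreeMonoid.ofList x.toList) = mor (hot D) (FreeMonoid.ofList y.toList) :=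
      h
    rw [mor_ofList, mor_ofList] at h1
    exact FreeMonoid.toList.injective (hinj (FreeMonoid.ofList.injective h1))
  · intro x y h
    have h1 : (mor (hot D) (FreeMonoid.ofList x.toList)).toList <+:
        (mor (hot D) (FreeMonoid.ofList y.toList)).toList := h
    rw [mor_ofList, mor_ofList] at h1
    exact block_isPrefix (hot D) (Fintype.card D) Fintype.card_pos (hot_injective D)
      (hot_length D) _ _ h1
  · intro x y h
    have h1 : (mor (hot D) (FreeMonoid.ofList x.toList)).toList <:+
        (mor (hot D) (FreeMonoid.ofList y.toList)).toList := h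
    rw [mor_ofList, mor_ofList] at h1
    exact block_isSuffix (hot D) (Fintype.card D) Fintype.card_pos (hot_injective D)
      (hot_length D) _ _ h1

variable {S : Type} [DecidableEq S] {A B C : S}

/-- The reversed second morphism. -/
def gr (A B C X : S) : List (Bool ⊕ S) := (gg A B C X).reverse

theorem gr_A : gr A B C A = [a S, b S, a S] := by rw [gr, gg_A]; rfl
theorem gr_B (hAB : A ≠ B) : gr A B C B = [a S, b S, a S, b S] := by rw [gr, gg_B hAB]; rfl
theorem gr_C (hAC : A ≠ C) (hBC : B ≠ C) : gr A B C C = [a S, b S, a S, b S, a S] := by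
  rw [gr, gg_C hAC hBC]; rfl
theorem gr_o {X : S} (h1 : X ≠ A) (h2 : X ≠ B) (h3 : X ≠ C) : gr A B C X = [Sum.inr X] := by
  rw [gr, gg_o h1 h2 h3]; rfl

/-- No image of a word starts with the letter `b`. -/
theorem nbr (hAB : A ≠ B) (hAC : A ≠ C) (hBC : B ≠ C) (V : List S) (t : List (Bool ⊕ S)) :
    ¬ (b S :: t <+: ext (gr A B C) V) := by
  cases V with
  | nil => simp [ext]
  | cons Y V =>
    rw [ext_cons]
    rcases letters A B C Y with hY | hY | hY | ⟨y1, y2, y3⟩
    · rw [hY, gr_A]; simp [a, b]
    · rw [hY, gr_B hAB]; simp [a, b]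
    · rw [hY, gr_C hAC hBC]; simp [a, b]
    · rw [gr_o y1 y2 y3]; simp [b]

theorem nbr' (hAB : A ≠ B) (hAC : A ≠ C) (hBC : B ≠ C) {U : List S} (hU : U ≠ [])
    (t : List (Bool ⊕ S)) : ¬ (ext (gr A B C) U <+: b S :: t) := by
  cases U with
  | nil => exact absurd rfl hU
  | cons X U =>
    rw [ext_cons]
    rcases letters A B C X with hX | hX | hX | ⟨x1, x2, x3⟩
    · rw [hX, gr_A]; simp [a, b]
    · rw [hX, gr_B hAB]; simp [a, b]
    · rw [hX, gr_C hAC hBC]; simp [a, b]
    · rw [gr_o x1 x2 x3]; simp [b]

/-- No image of a word continues `a b a b` to an image of a word starting with `a b a b a` and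
then an image of a word. -/
theorem BC (hAB : A ≠ B) (hAC : A ≠ C) (hBC : B ≠ C) (V : List S) {U : List S} (hU : U ≠ []) :
    ¬ (ext (gr A B C) U <+: a S :: ext (gr A B C) V) := by
  cases U with
  | nil => exact absurd rfl hU
  | cons X U =>
    intro h
    rw [ext_cons] at h
    rcases letters A B C X with hX | hX | hX | ⟨x1, x2, x3⟩
    · rw [hX, gr_A] at h
      simp only [List.cons_append, List.nil_append, List.cons_prefix_cons, true_and] at h
      exact nbr hAB hAC hBC V _ h
    · rw [hX, gr_B hAB] at h
      simp only [List.cons_append, List.nil_append, List.cons_prefix_cons, true_and] at h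
      exact nbr hAB hAC hBC V _ h
    · rw [hX, gr_C hAC hBC] at h
      simp only [List.cons_append, List.nil_append, List.cons_prefix_cons, true_and] at h
      exact nbr hAB hAC hBC V _ h
    · rw [gr_o x1 x2 x3] at h
      simp [a] at h

theorem CB (hAB : A ≠ B) (hAC : A ≠ C) (hBC : B ≠ C) (V : List S) (U : List S) (hU : U ≠ []) :
    ¬ (a S :: ext (gr A B C) U <+: ext (gr A B C) V) := by
  cases V with
  | nil => simp [ext]
  | cons Y V =>
    intro h
    rw [ext_cons] at h
    rcases letters A B C Y with hY | hY | hY | ⟨y1, y2, y3⟩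
    · rw [hY, gr_A] at h
      simp only [List.cons_append, List.nil_append, List.cons_prefix_cons, true_and] at h
      exact nbr' hAB hAC hBC hU _ h
    · rw [hY, gr_B hAB] at h
      simp only [List.cons_append, List.nil_append, List.cons_prefix_cons, true_and] at h
      exact nbr' hAB hAC hBC hU _ h
    · rw [hY, gr_C hAC hBC] at h
      simp only [List.cons_append, List.nil_append, List.cons_prefix_cons, true_and] at h
      exact nbr' hAB hAC hBC hU _ h
    · rw [gr_o y1 y2 y3] at h
      simp [a] at h

/-- The reversed morphism is of bounded delay one. -/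
theorem delay_gr (hAB : A ≠ B) (hAC : A ≠ C) (hBC : B ≠ C) (X Y : S) (U V : List S)
    (hU : 1 ≤ U.length) (h : ext (gr A B C) (X :: U) <+: ext (gr A B C) (Y :: V)) : X = Y := by
  have hU0 : U ≠ [] := by rintro rfl; simp at hU
  by_contra hne
  rw [ext_cons, ext_cons] at h
  rcases letters A B C X with hX | hX | hX | ⟨x1, x2, x3⟩
  · rw [hX, gr_A] at h
    rcases letters A B C Y with hY | hY | hY | ⟨y1, y2, y3⟩
    · exact hne (hX.trans hY.symm)
    · rw [hY, gr_B hAB] at h
      simp only [List.cons_append, List.nil_append, List.cons_prefix_cons, true_and] at h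
      exact nbr' hAB hAC hBC hU0 _ h
    · rw [hY, gr_C hAC hBC] at h
      simp only [List.cons_append, List.nil_append, List.cons_prefix_cons, true_and] at h
      exact nbr' hAB hAC hBC hU0 _ h
    · rw [gr_o y1 y2 y3] at h
      simp [a] at h
  · rw [hX, gr_B hAB] at h
    rcases letters A B C Y with hY | hY | hY | ⟨y1, y2, y3⟩
    · rw [hY, gr_A] at h
      simp only [List.cons_append, List.nil_append, List.cons_prefix_cons, true_and] at h
      exact nbr hAB hAC hBC V _ h
    · exact hne (hX.trans hY.symm)
    · rw [hY, gr_C hAC hBC] at h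
      simp only [List.cons_append, List.nil_append, List.cons_prefix_cons, true_and] at h
      exact BC hAB hAC hBC V hU0 h
    · rw [gr_o y1 y2 y3] at h
      simp [a] at h
  · rw [hX, gr_C hAC hBC] at h
    rcases letters A B C Y with hY | hY | hY | ⟨y1, y2, y3⟩
    · rw [hY, gr_A] at h
      simp only [List.cons_append, List.nil_append, List.cons_prefix_cons, true_and] at h
      exact nbr hAB hAC hBC V _ h
    · rw [hY, gr_B hAB] at h
      simp only [List.cons_append, List.nil_append, List.cons_prefix_cons, true_and] at h
      exact CB hAB hAC hBC V U hU0 h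
    · exact hne (hX.trans hY.symm)
    · rw [gr_o y1 y2 y3] at h
      simp [a] at h
  · rw [gr_o x1 x2 x3] at h
    rcases letters A B C Y with hY | hY | hY | ⟨y1, y2, y3⟩
    · rw [hY, gr_A] at h
      simp [a] at h
    · rw [hY, gr_B hAB] at h
      simp [a] at h
    · rw [hY, gr_C hAC hBC] at h
      simp [a] at h
    · rw [gr_o y1 y2 y3] at h
      simp only [List.cons_append, List.nil_append, List.cons_prefix_cons, Sum.inr.injEq] at h
      exact hne h.1

/-- The morphism `gg` is of bounded delay one from right to left. -/
theorem delay_gg (hAB : A ≠ B) (hAC : A ≠ C) (hBC : B ≠ C) (X Y : S) (U V : List S)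
    (hU : 1 ≤ U.length) (h : ext (gg A B C) (U ++ [X]) <:+ ext (gg A B C) (V ++ [Y])) : X = Y := by
  rw [← List.reverse_prefix, ext_reverse, ext_reverse] at h
  simp only [List.reverse_append, List.reverse_cons, List.reverse_nil, List.nil_append,
    List.cons_append] at h
  exact delay_gr hAB hAC hBC X Y U.reverse V.reverse (by simpa using hU) h

end Pool.Agent.KS6_1.EqSet
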